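import Mathlib

set_option autoImplicit false

namespace Pool.Agent.Results.MP_31c4fb_co.EventuallyConstant

/-- `Phi n k a` is the number of permutations `π` of the `k` indices for which the `k` elements
`a_{π(1)} + 1, …, a_{π(k)} + k` of `ℤ/n` are pairwise distinct. -/
noncomputable def Phi (n k : ℕ) (a : Fin k → ZMod n) : ℕ :=
  {π : Equiv.Perm (Fin k) |
    Function.Injective (fun i : Fin k => a (π i) + (((i : ℕ) + 1 : ℕ) : ZMod n))}.ncard

/-- `N n k` is the minimum of `Phi n k a` over all `a` in `(ℤ/n)^k`. -/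
noncomputable def N (n k : ℕ) : ℕ := ⨅ a : Fin k → ZMod n, Phi n k a

/-- Sums in the integers. -/
noncomputable def PhiZ (k : ℕ) (b : Fin k → ℤ) : ℕ :=
  {π : Equiv.Perm (Fin k) | Function.Injective (fun i : Fin k => b (π i) + ((i : ℕ) : ℤ))}.ncard

theorem phi_cast (M k : ℕ) (b : Fin k → ℤ) (hb : ∀ x y, b x - b y + k ≤ M) :
    Phi M k (fun x => ((b x : ℤ) : ZMod M)) = PhiZ k b := by
  unfold Phi PhiZ
  congr 1
  ext π
  simp only [Set.mem_ofPred_eq]
  constructor
  · intro h i j hij
    apply h
    simp only at hij ⊢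
    have : ((b (π i) + ((i : ℕ) : ℤ) : ℤ) : ZMod M) = ((b (π j) + ((j : ℕ) : ℤ) : ℤ) : ZMod M) := by
      rw [hij]
    push_cast at this ⊢
    rw [← add_assoc, this, add_assoc]
  · intro h i j hij
    apply h
    simp only at hij ⊢
    have h1 : ((b (π i) + ((i : ℕ) : ℤ) : ℤ) : ZMod M) = ((b (π j) + ((j : ℕ) : ℤ) : ℤ) : ZMod M) := by
      push_cast at hij ⊢
      have := hij
      rw [← add_assoc, ← add_assoc] at this
      exact add_right_cancel this
    rw [ZMod.intCast_eq_intCast_iff_dvd_sub] at h1
    have hi := i.isLt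
    have hj := j.isLt
    have e1 := hb (π i) (π j)
    have e2 := hb (π j) (π i)
    by_contra hne
    have hpos : (0:ℤ) < |(b (π j) + ((j : ℕ) : ℤ)) - (b (π i) + ((i : ℕ) : ℤ))| := by
      rw [abs_pos]
      intro h0
      exact hne (by linarith)
    have hle := Int.le_of_dvd hpos ((dvd_abs _ _).2 h1)
    rcases abs_cases ((b (π j) + ((j : ℕ) : ℤ)) - (b (π i) + ((i : ℕ) : ℤ))) with h2 | h2 <;> omega

theorem phi_translate (M k : ℕ) (a : Fin k → ZMod M) (c : ZMod M) :
    Phi M k (fun x => a x - c) = Phi M k a := by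
  unfold Phi
  congr 1
  ext π
  simp only [Set.mem_ofPred_eq]
  constructor
  · intro h i j hij
    apply h
    simp only at hij ⊢
    linear_combination hij
  · intro h i j hij
    apply h
    simp only at hij ⊢
    linear_combination hij

/-- A free window. -/
theorem exists_window (M k w : ℕ) (hM : 0 < M) (a : Fin k → ZMod M) (h : k * w < M) :
    ∃ c : ZMod M, ∀ x, (a x - c).val + w + 1 ≤ M := by
  have : NeZero M := ⟨hM.ne'⟩
  by_contra hcon
  push Not at hcon
  choose f hf using hcon
  -- every `c` is of the form `a x + t + 1`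
  have hsurj : Function.Surjective (fun p : Fin k × Fin w => a p.1 + (((p.2 : ℕ) + 1 : ℕ) : ZMod M)) := by
    intro c
    have h1 := hf c
    have h2 := ZMod.val_lt (a (f c) - c)
    refine ⟨(f c, ⟨M - 1 - (a (f c) - c).val, by omega⟩), ?_⟩
    simp only
    have h3 : ((((a (f c) - c).val : ℕ) : ZMod M)) = a (f c) - c := ZMod.natCast_zmod_val _
    have h4 : ((M - 1 - (a (f c) - c).val + 1 + (a (f c) - c).val : ℕ) : ZMod M) = 0 := by
      have : M - 1 - (a (f c) - c).val + 1 + (a (f c) - c).val = M := by omega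
      rw [this]; exact ZMod.natCast_self M
    push_cast at h4 ⊢
    rw [h3] at h4
    linear_combination h4
  have hc := Fintype.card_le_of_surjective _ hsurj
  rw [ZMod.card, Fintype.card_prod, Fintype.card_fin, Fintype.card_fin] at hc
  omega

theorem exists_int (M k w : ℕ) (hM : 0 < M) (a : Fin k → ZMod M) (h : k * w < M) (hw : k ≤ w + 1) :
    ∃ b : Fin k → ℤ, (∀ x, 0 ≤ b x ∧ b x + w + 1 ≤ M) ∧ Phi M k a = PhiZ k b := by
  have : NeZero M := ⟨hM.ne'⟩
  obtain ⟨c, hc⟩ := exists_window M k w hM a h
  refine ⟨fun x => ((a x - c).val : ℤ), fun x => ⟨by positivity, by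
    have := hc x
    show (((a x - c).val : ℕ) : ℤ) + w + 1 ≤ M
    exact_mod_cast this⟩, ?_⟩
  rw [← phi_translate M k a c, ← phi_cast M k (fun x => ((a x - c).val : ℤ))]
  · congr 1
    ext x
    simp
  · intro x y
    have h1 := hc x
    have h2 := hc y
    omega

/-- **The function `n ↦ N(n, k)` is constant for `n ≥ k²`.** In particular the inequality
`N(n, k) ≤ N(n+1, k)` of Kézdy and Snevily holds for every `k` and every `n ≥ k²`. -/
theorem result : ∀ n k : ℕ, 0 < n → k ^ 2 ≤ n → N n k = N (n + 1) k := by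
  intro n k hn hk
  have : NeZero n := ⟨hn.ne'⟩
  apply le_antisymm
  · apply le_ciInf
    intro a
    obtain ⟨b, hb, he⟩ := exists_int (n + 1) k k (by omega) a (by nlinarith) (by omega)
    rw [he, ← phi_cast n k b]
    · exact ciInf_le (OrderBot.bddBelow _) _
    · intro x y
      have h1 := hb x
      have h2 := hb y
      push_cast at h1 h2
      omega
  · apply le_ciInf
    intro a
    obtain ⟨b, hb, he⟩ := exists_int n k (k - 1) hn a (by
      rcases Nat.eq_zero_or_pos k with h | h
      · subst h; simpa using hn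
      · have : k * (k - 1) < k * k := by
          apply Nat.mul_lt_mul_of_pos_left <;> omega
        nlinarith) (by omega)
    rw [he, ← phi_cast (n + 1) k b]
    · exact ciInf_le (OrderBot.bddBelow _) _
    · intro x y
      have h1 := hb x
      have h2 := hb y
      have hx := x.isLt
      push_cast at h1 h2 ⊢
      omega

end Pool.Agent.Results.MP_31c4fb_co.EventuallyConstant
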